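import Mathlib

set_option autoImplicit false

namespace Pool.Agent.Results.MP_36fbc5_co.NonClassicalNet

/-- `(V, B)` is an `(s, r, μ)`-net: `s ^ 2 * μ` points, blocks of size `s * μ`, the blocks are split
into `r` parallel classes `C i`, each of which is a partition of `V`, and blocks from two different
parallel classes meet in exactly `μ` points (and are different). -/
def IsNet {V : Type} (B : Set (Set V)) (s r μ : ℕ) : Prop :=
  Nat.card V = s ^ 2 * μ ∧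
  (∀ b ∈ B, b.ncard = s * μ) ∧
  ∃ C : Fin r → Set (Set V),
    (∀ i, Setoid.IsPartition (C i)) ∧
    (⋃ i, C i) = B ∧
    (∀ i j, i ≠ j → ∀ b ∈ C i, ∀ b' ∈ C j, b ≠ b' ∧ (b ∩ b').ncard = μ)

/-- The dual structure: its points are the blocks of `(V, B)`, and every point `p` of `V` gives the
block consisting of all `b` in `B` that contain `p`. -/
def dualBlocks {V : Type} (B : Set (Set V)) : Set (Set B) :=
  Set.range fun p : V => {b : B | p ∈ (b : Set V)}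

/-- A symmetric `(s, μ)`-net: an `(s, s * μ, μ)`-net whose dual is an `(s, s * μ, μ)`-net. -/
def IsSymmetricNet {V : Type} (B : Set (Set V)) (s μ : ℕ) : Prop :=
  IsNet B s (s * μ) μ ∧ IsNet (dualBlocks B) s (s * μ) μ

/-- Two points are joined if some block contains both. -/
def Joined {V : Type} (B : Set (Set V)) (p q : V) : Prop := ∃ b ∈ B, p ∈ b ∧ q ∈ b

/-- A permutation of the points that maps blocks to blocks. -/
def IsAutomorphism {V : Type} (B : Set (Set V)) (g : Equiv.Perm V) : Prop :=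
  ∀ b ∈ B, g '' b ∈ B

/-- `G` is transitive on the unordered pairs `{p, q}` of distinct points in the relation `R`. -/
def TransitiveOnPairs {V : Type} (G : Subgroup (Equiv.Perm V)) (R : V → V → Prop) : Prop :=
  ∀ p q p' q' : V, p ≠ q → R p q → p' ≠ q' → R p' q' → ∃ g ∈ G, s(g p, g q) = s(p', q')

/-- `(V, B)` is isomorphic to a classical symmetric net: the points of `AG(d, q)`, `d ≥ 2`, and the
hyperplanes `{x | f x = a}` that do not contain a translate of the line spanned by `v ≠ 0`. -/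
def IsClassical {V : Type} (B : Set (Set V)) : Prop :=
  ∃ (F : Type) (_ : Field F) (_ : Finite F) (d : ℕ) (v : Fin d → F) (e : V ≃ (Fin d → F)),
    2 ≤ d ∧ v ≠ 0 ∧
    ∀ b : Set V, b ∈ B ↔
      ∃ (f : (Fin d → F) →ₗ[F] F) (a : F), f v ≠ 0 ∧ e '' b = {x | f x = a}

/-! ### The generalized Hadamard matrix of order 6 over the group of order 3 -/

/-- The exponents of the matrix. -/
def H : Fin 6 → Fin 6 → Fin 3 :=
  ![![0, 0, 0, 0, 0, 0],
    ![0, 0, 1, 1, 2, 2],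
    ![0, 1, 0, 2, 2, 1],
    ![0, 1, 2, 0, 1, 2],
    ![0, 2, 2, 1, 0, 1],
    ![0, 2, 1, 2, 1, 0]]

/-- Incidence of the point `p = 3 i + x` with the block number `3 j + c`: `x + H i j = c`. -/
def inc (p k : Fin 18) : Bool :=
  (p.val % 3 + (H ⟨p.val / 3, by omega⟩ ⟨k.val / 3, by omega⟩).val) % 3 == k.val % 3

def blk (k : Fin 18) : Set (Fin 18) := {p | inc p k = true}

def B : Set (Set (Fin 18)) := Set.range blk

def idx (j : Fin 6) (c : Fin 3) : Fin 18 := ⟨3 * j.val + c.val, by omega⟩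

lemma exists_idx : ∀ k : Fin 18, ∃ j c, k = idx j c := by decide

lemma ncard_eq (P : Fin 18 → Bool) :
    {p : Fin 18 | P p = true}.ncard = (Finset.univ.filter (fun p => P p = true)).card := by
  rw [← Set.ncard_coe_finset]
  congr 1
  ext p
  simp

lemma blk_injective : Function.Injective blk := by
  intro k l h
  have h1 : ∀ p, inc p k = inc p l := by
    intro p
    have : p ∈ blk k ↔ p ∈ blk l := by rw [h]
    simp only [blk, Set.mem_ofPred_eq] at this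
    exact Bool.eq_iff_iff.mpr this
  have h2 : ∀ k l : Fin 18, (∀ p, inc p k = inc p l) → k = l := by decide +kernel
  exact h2 k l h1

/-- General criterion for a net whose blocks are indexed by class and position in the class. -/
lemma isNet_of {V : Type} [Nonempty V] {r s μ : ℕ} (X : Type) (b : Fin r → X → Set V)
    (hV : Nat.card V = s ^ 2 * μ) (hb : ∀ j x, (b j x).ncard = s * μ) (hsμ : 0 < s * μ)
    (hpart : ∀ j p, ∃! x, p ∈ b j x)
    (hint : ∀ i j, i ≠ j → ∀ x y, (b i x ∩ b j y).ncard = μ) (hlt : μ < s * μ)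
    (BB : Set (Set V)) (hB : ∀ S, S ∈ BB ↔ ∃ j x, S = b j x) :
    IsNet BB s r μ := by
  refine ⟨hV, ?_, fun j => Set.range (b j), ?_, ?_, ?_⟩
  · intro S hS
    obtain ⟨j, x, rfl⟩ := (hB S).1 hS
    exact hb j x
  · intro j
    refine ⟨?_, ?_⟩
    · rintro ⟨x, hx⟩
      have := hb j x
      rw [hx, Set.ncard_empty] at this
      omega
    · intro p
      obtain ⟨x, hx, hu⟩ := hpart j p
      refine ⟨b j x, ⟨⟨x, rfl⟩, hx⟩, ?_⟩
      rintro S ⟨⟨y, rfl⟩, hy⟩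
      rw [hu y hy]
  · ext S
    rw [hB S]
    simp only [Set.mem_iUnion, Set.mem_range]
    constructor
    · rintro ⟨j, x, h⟩
      exact ⟨j, x, h.symm⟩
    · rintro ⟨j, x, h⟩
      exact ⟨j, x, h.symm⟩
  · rintro i j hij S ⟨x, rfl⟩ S' ⟨y, rfl⟩
    have h1 := hint i j hij x y
    refine ⟨?_, h1⟩
    intro h
    rw [← h, Set.inter_self, hb i x] at h1
    omega

lemma primal : IsNet B 3 (3 * 2) 2 := by
  refine isNet_of (Fin 3) (fun (j : Fin 6) c => blk (idx j c)) ?_ ?_ (by norm_num) ?_ ?_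
    (by norm_num) B ?_
  · simp
  · intro j c
    show ({p | inc p (idx j c) = true} : Set (Fin 18)).ncard = 3 * 2
    rw [ncard_eq (fun p => inc p (idx j c))]
    revert j c
    decide +kernel
  · intro j p
    have key : ∀ (j : Fin 6) (p : Fin 18), ∃ x : Fin 3, inc p (idx j x) = true ∧
        ∀ y : Fin 3, inc p (idx j y) = true → y = x := by
      decide +kernel
    exact key j p
  · intro i j hij x y
    have : blk (idx i x) ∩ blk (idx j y)
        = {p | (inc p (idx i x) && inc p (idx j y)) = true} := by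
      ext p
      simp [blk]
    show (blk (idx i x) ∩ blk (idx j y)).ncard = 2
    rw [this, ncard_eq (fun p => inc p (idx i x) && inc p (idx j y))]
    clear this
    revert i j x y
    decide +kernel
  · intro S
    constructor
    · rintro ⟨k, rfl⟩
      obtain ⟨j, c, rfl⟩ := exists_idx k
      exact ⟨j, c, rfl⟩
    · rintro ⟨j, c, rfl⟩
      exact ⟨_, rfl⟩

/-- The bijection between block numbers and blocks. -/
noncomputable def eB : Fin 18 ≃ B := Equiv.ofInjective blk blk_injective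

lemma eB_val (k : Fin 18) : ((eB k : B) : Set (Fin 18)) = blk k := rfl

def star (p : Fin 18) : Set B := {b : B | p ∈ (b : Set (Fin 18))}

lemma star_eq (p : Fin 18) : star p = eB '' {k | inc p k = true} := by
  ext b
  constructor
  · intro hb
    refine ⟨eB.symm b, ?_, by simp⟩
    have h : ((eB (eB.symm b) : B) : Set (Fin 18)) = b := by simp
    have h2 : p ∈ ((eB (eB.symm b) : B) : Set (Fin 18)) := by rw [h]; exact hb
    rw [eB_val] at h2
    exact h2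
  · rintro ⟨k, hk, rfl⟩
    show p ∈ ((eB k : B) : Set (Fin 18))
    rw [eB_val]
    exact hk

lemma dual : IsNet (dualBlocks B) 3 (3 * 2) 2 := by
  have : Nonempty B := ⟨eB 0⟩
  refine isNet_of (Fin 3) (fun (i : Fin 6) x => star (idx i x)) ?_ ?_ (by norm_num) ?_ ?_
    (by norm_num) (dualBlocks B) ?_
  · rw [← Nat.card_congr eB]
    simp
  · intro j c
    show (star (idx j c)).ncard = 3 * 2
    rw [star_eq, Set.ncard_image_of_injective _ eB.injective,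
      ncard_eq (fun k => inc (idx j c) k)]
    revert j c
    decide +kernel
  · intro i b
    obtain ⟨k, rfl⟩ := eB.surjective b
    have key : ∀ (i : Fin 6) (k : Fin 18), ∃ x : Fin 3, inc (idx i x) k = true ∧
        ∀ y : Fin 3, inc (idx i y) k = true → y = x := by
      decide +kernel
    obtain ⟨x, hx, hu⟩ := key i k
    refine ⟨x, ?_, ?_⟩
    · show idx i x ∈ ((eB k : B) : Set (Fin 18))
      rw [eB_val]
      exact hx
    · intro y hy
      apply hu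
      have : idx i y ∈ ((eB k : B) : Set (Fin 18)) := hy
      rw [eB_val] at this
      exact this
  · intro i j hij x y
    show (star (idx i x) ∩ star (idx j y)).ncard = 2
    rw [star_eq, star_eq, ← Set.image_inter eB.injective,
      Set.ncard_image_of_injective _ eB.injective]
    have : ({k | inc (idx i x) k = true} ∩ {k | inc (idx j y) k = true} : Set (Fin 18))
        = {k | (inc (idx i x) k && inc (idx j y) k) = true} := by
      ext p
      simp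
    rw [this, ncard_eq (fun k => inc (idx i x) k && inc (idx j y) k)]
    clear this
    revert i j x y
    decide +kernel
  · intro S
    constructor
    · rintro ⟨k, rfl⟩
      obtain ⟨j, c, rfl⟩ := exists_idx k
      exact ⟨j, c, rfl⟩
    · rintro ⟨j, c, rfl⟩
      exact ⟨_, rfl⟩

/-! ### The group -/

/-- The group of all permutations `g` such that `g` and its inverse map blocks to blocks. -/
def G : Subgroup (Equiv.Perm (Fin 18)) where
  carrier := {g | ∀ b, b ∈ B ↔ g '' b ∈ B}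
  one_mem' := by
    intro b
    simp
  mul_mem' := by
    intro g h hg hh b
    rw [hh b, hg (h '' b), Set.image_image]
    rfl
  inv_mem' := by
    intro g hg b
    have h1 := hg ((g⁻¹ : Equiv.Perm (Fin 18)) '' b)
    have h2 : g '' ((g⁻¹ : Equiv.Perm (Fin 18)) '' b) = b := by
      rw [Set.image_image]
      simp
    rw [h2] at h1
    exact h1.symm

def g0 : Equiv.Perm (Fin 18) where
  toFun := ![14, 13, 12, 7, 6, 8, 0, 2, 1, 5, 4, 3, 16, 15, 17, 9, 11, 10]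
  invFun := ![6, 8, 7, 11, 10, 9, 4, 3, 5, 15, 17, 16, 2, 1, 0, 13, 12, 14]
  left_inv := by decide +kernel
  right_inv := by decide +kernel

def g1 : Equiv.Perm (Fin 18) where
  toFun := ![0, 2, 1, 9, 11, 10, 6, 8, 7, 15, 17, 16, 3, 5, 4, 12, 14, 13]
  invFun := ![0, 2, 1, 12, 14, 13, 6, 8, 7, 3, 5, 4, 15, 17, 16, 9, 11, 10]
  left_inv := by decide +kernel
  right_inv := by decide +kernel

def g2 : Equiv.Perm (Fin 18) where
  toFun := ![7, 8, 6, 5, 3, 4, 16, 17, 15, 0, 1, 2, 9, 10, 11, 14, 12, 13]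
  invFun := ![9, 10, 11, 4, 5, 3, 2, 0, 1, 12, 13, 14, 16, 17, 15, 8, 6, 7]
  left_inv := by decide +kernel
  right_inv := by decide +kernel

def h0 : Equiv.Perm (Fin 18) where
  toFun := ![9, 11, 10, 7, 6, 8, 15, 17, 16, 2, 1, 0, 14, 13, 12, 4, 3, 5]
  invFun := ![11, 10, 9, 16, 15, 17, 4, 3, 5, 0, 2, 1, 14, 13, 12, 6, 8, 7]
  left_inv := by decide +kernel
  right_inv := by decide +kernel

def h2 : Equiv.Perm (Fin 18) where
  toFun := ![9, 10, 11, 5, 3, 4, 1, 2, 0, 12, 13, 14, 17, 15, 16, 7, 8, 6]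
  invFun := ![8, 6, 7, 4, 5, 3, 17, 15, 16, 0, 1, 2, 9, 10, 11, 13, 14, 12]
  left_inv := by decide +kernel
  right_inv := by decide +kernel

/-- A permutation of the points together with a compatible permutation of block numbers. -/
lemma mem_G (g h : Equiv.Perm (Fin 18)) (hgh : ∀ p k, inc (g p) (h k) = inc p k) : g ∈ G := by
  have key : ∀ k, g '' blk k = blk (h k) := by
    intro k
    ext p
    constructor
    · rintro ⟨q, hq, rfl⟩
      show inc (g q) (h k) = true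
      rw [hgh]
      exact hq
    · intro hp
      refine ⟨g.symm p, ?_, by simp⟩
      show inc (g.symm p) k = true
      rw [← hgh, Equiv.apply_symm_apply]
      exact hp
  intro b
  constructor
  · rintro ⟨k, rfl⟩
    exact ⟨h k, (key k).symm⟩
  · rintro ⟨k, hk⟩
    refine ⟨h.symm k, ?_⟩
    have h1 : g '' blk (h.symm k) = g '' b := by
      rw [key, ← hk]
      simp
    exact g.injective.image_injective h1

lemma g0_mem : g0 ∈ G := mem_G g0 h0 (by decide +kernel)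
lemma g1_mem : g1 ∈ G := mem_G g1 g1 (by decide +kernel)
lemma g2_mem : g2 ∈ G := mem_G g2 h2 (by decide +kernel)

/-- The three generators. -/
def gen : Fin 3 → Equiv.Perm (Fin 18)
  | 0 => g0
  | 1 => g1
  | 2 => g2

lemma gen_mem (i : Fin 3) : gen i ∈ G := by
  fin_cases i
  · exact g0_mem
  · exact g1_mem
  · exact g2_mem

/-- The product of the generators along a word. -/
def ev (w : List (Fin 3)) : Equiv.Perm (Fin 18) := (w.map gen).prod

lemma ev_mem (w : List (Fin 3)) : ev w ∈ G := by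
  apply Subgroup.list_prod_mem
  intro x hx
  obtain ⟨i, -, rfl⟩ := List.mem_map.1 hx
  exact gen_mem i

/-- Applying a word to a point. -/
def app (w : List (Fin 3)) (p : Fin 18) : Fin 18 := w.foldr (fun i q => gen i q) p

lemma app_eq (w : List (Fin 3)) (p : Fin 18) : app w p = ev w p := by
  induction w with
  | nil => rfl
  | cons i w ih =>
    show gen i (app w p) = ev (i :: w) p
    rw [ih]
    simp [ev, Equiv.Perm.mul_apply]

/-- Words that take a base pair to a given pair. -/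
def wordTable : List (List (List (Fin 3))) :=
[
[[], [], [1], [], [0, 2, 2, 2, 0], [1, 0, 0, 1, 0], [0, 0, 1, 0, 1], [0, 1, 1, 2, 0, 2], [2, 1, 0, 1, 1, 0], [1], [2, 0, 2, 1, 2], [2, 0, 0, 2, 0, 0], [1, 1, 1], [0, 0, 1, 0], [2, 0, 0, 1, 0, 0], [1, 1], [0, 1, 2, 0, 2], [1, 2, 0, 2, 1, 2]],
[[2, 0, 0, 0], [], [1, 0, 2], [2, 1, 2, 2, 1, 0], [0, 1, 2], [1, 2, 2, 0], [0, 1, 2, 1, 1], [1, 0, 2], [2, 0, 0, 0, 1], [2, 0, 0, 0], [0, 2, 1, 0, 2], [2, 2, 2, 0, 0, 1], [2, 2, 2, 0, 0], [1, 2, 1, 1, 0], [0, 1, 2, 1], [2, 2, 1, 0, 0], [2, 0, 2, 2], [1, 0, 1, 1, 2]],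
[[0, 2, 1], [0, 2], [], [2, 2, 0, 1], [1, 0, 1, 2, 1], [0, 0, 2, 1, 0], [0, 0, 0, 2, 0], [2, 2, 0, 1, 1], [0, 2], [2, 1, 1, 0, 1, 1], [0, 1, 1, 2], [1, 0, 1, 2], [1, 2, 2, 1, 0, 0], [2, 2, 0], [0, 2, 1], [1, 2, 0, 0, 0], [0, 0, 0, 1, 1, 0], [2, 1, 1, 0]],
[[1, 1, 0, 2, 0, 0], [2, 1, 0, 1], [0, 1, 1, 0], [], [2, 1, 0], [2, 1, 0, 1], [0, 2, 0, 1], [2, 0, 0, 2, 2], [2, 0, 2, 1, 0, 0], [0, 0, 1, 2, 0], [0, 2, 0], [2, 1, 0, 1, 1, 1], [2, 0, 0, 0, 0], [1, 0, 0, 2, 1], [2, 1, 0, 1, 1], [2, 1, 0], [2, 2, 1, 1, 0, 0], [1, 2, 1, 2, 0]],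
[[0, 0, 2, 2], [0, 2, 1, 0, 0], [0, 0, 1, 0, 0, 0], [1, 0, 1], [], [1, 0], [2, 1, 1, 0, 0], [1, 2, 2, 1, 2], [1, 0], [2, 1, 2, 0, 0, 1], [1, 0, 1], [0, 2, 2, 0, 0], [0, 0, 2, 2, 1], [0, 0, 0, 0, 1], [1, 0, 1, 1, 1], [1, 0, 1, 1], [0, 0, 0, 0], [1, 2, 0, 1, 0, 0]],
[[2, 0, 0, 1, 2, 0], [2, 0, 2, 0], [1, 1, 0, 0], [1, 1, 0, 0], [1, 2, 0, 0], [], [1, 2, 0, 0], [1, 1, 2, 2, 1], [1, 1, 0, 0, 1], [1, 2, 2, 2], [0, 1, 0, 2, 0], [1, 2, 0, 0, 1, 1], [1, 2, 0, 0, 1], [1, 2, 2, 2, 1], [2, 2, 1, 0], [0, 0, 2, 1, 2], [1, 1, 2, 2], [0, 0, 0, 2, 0, 0]],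
[[0, 2, 1, 1, 0, 0], [0, 1, 0], [1, 0, 1, 0], [1, 1, 2, 0, 2], [0, 1, 0, 1], [2, 2, 2, 0, 1], [], [1, 0, 1, 0], [0, 1, 0], [0, 1, 0, 1, 1], [2, 2, 2, 0], [2, 0, 2, 1], [1, 2, 0, 2], [2, 2, 1, 1, 0], [0, 0, 0, 2, 2], [2, 0, 2], [1, 2, 0, 2, 1], [1, 2, 2, 2, 0]],
[[2, 1], [2, 2, 0, 2, 1, 2], [0, 2, 0, 0, 2, 2], [1, 0, 1, 1, 0, 0], [0, 0, 2, 0], [2], [2, 1], [], [2], [0, 2, 1, 0], [2, 0, 0, 1, 0], [1, 1, 2, 1, 1], [0, 0, 1, 1, 0], [0, 2, 1, 0, 1], [2, 1, 1], [0, 1, 0, 0, 2, 1], [0, 2, 0, 0, 0, 0], [1, 1, 2]],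
[[1, 2, 1], [0, 1, 1, 0, 0, 1], [0, 1, 1, 2, 2, 1], [2, 0, 1, 2], [1, 2, 1, 1], [0, 1, 2, 2, 2], [1, 2, 1], [1, 2], [], [2, 2, 2, 2, 0, 0], [1, 2], [1, 0, 0, 2, 0], [0, 1, 1, 0, 0], [1, 1, 1, 2], [2, 2, 2, 1, 0, 0], [1, 0, 2, 1, 0], [0, 1, 2, 0, 0, 1], [2, 1, 0, 2]],
[[2, 1, 0, 1, 2, 2], [1, 0, 1, 1, 0], [1, 2, 1, 0, 1], [1, 2, 0, 0, 0, 0], [2, 1, 0, 1, 0, 0], [0, 0, 2, 0, 0, 1], [1, 0, 2, 0, 1], [0, 0, 1, 2, 2], [2, 0, 0, 2], [], [2, 0, 0, 2], [1, 2, 1, 0], [1, 2, 1, 0], [0, 2, 1, 2], [0, 0, 2, 0, 0], [0, 0, 1, 0, 0], [0, 0, 0, 1, 0, 2], [1, 0, 2, 0]],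
[[0, 1, 0, 2, 2], [0, 0, 0, 1], [0, 2, 2, 1], [0, 2, 2, 1, 1], [1, 2, 2, 1, 0], [2, 2, 2, 2], [0, 2, 2], [0, 1, 0, 0, 0], [2, 1, 0, 0], [0, 0, 0], [], [2, 2, 0, 0], [0, 0, 0], [2, 2, 2, 2, 1], [2, 2, 0, 0, 1], [2, 1, 2, 2, 1], [2, 2, 0, 0], [2, 1, 0, 0, 1]],
[[2, 0, 1, 1], [0, 2, 0, 1, 0], [1, 0, 2, 1, 0, 0], [0, 1, 2, 0, 1], [2, 0, 1], [0, 0, 0, 2, 2, 0], [1, 2, 1, 1, 0, 0], [1, 1, 0], [1, 1, 2, 2, 1, 2], [2, 0, 1], [2, 0], [], [1, 1, 0, 1, 1], [0, 2, 2, 2, 2, 0], [1, 0, 0, 0, 0], [0, 1, 2, 0], [1, 0, 2, 2, 0, 0], [2, 0]],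
[[1, 0, 2, 0, 0], [0, 0, 2], [1, 2, 1, 2], [0, 1, 0, 1, 2], [0, 0, 1, 1, 2], [1, 0, 1, 0, 0], [2, 2, 2, 0, 2, 1], [0, 2, 2, 0, 1], [1, 2, 1, 2, 1], [1, 0, 1, 2, 2], [2, 1, 2, 0], [2, 2, 2, 0, 2], [], [0, 0, 2], [0, 0, 2, 1], [0, 2, 2, 0], [2, 2, 1, 0, 1, 0], [0, 0, 2, 1]],
[[1, 2, 0, 2, 1, 0], [1, 0, 0], [0, 1, 0, 2], [2, 2, 2], [2, 0, 0, 1, 1], [2, 1, 0, 0, 0], [2, 0, 0], [1, 0, 0, 1], [1, 2, 2, 1], [1, 1, 0, 0, 0], [1, 0, 0, 1, 1], [1, 2, 2], [1, 0, 0], [], [2, 0, 0], [2, 0, 0, 1], [1, 2, 2, 1, 1], [2, 2, 2, 1]],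
[[2, 0, 2, 0, 0, 1], [1, 2, 2, 0, 2, 1], [1, 2, 2, 2, 2, 0], [1, 1, 0, 1, 2, 0], [1, 2, 2, 0, 2], [0, 1], [1, 2, 1, 0, 1, 0], [0], [2, 2, 1, 2], [0, 1, 1], [2, 0, 1, 0, 0], [1, 0, 2, 1, 2, 0], [0, 1], [0], [], [0, 0, 0, 1, 0], [0, 1, 1, 1], [2, 2, 1, 2, 1]],
[[0, 2, 0, 0], [2, 1, 2], [0, 1, 0, 0, 1], [0, 1, 2, 2], [1, 0, 0, 2, 0, 0], [2, 2, 0, 1, 2], [1, 1, 0, 2, 0, 1], [2, 1, 2, 1], [0, 2, 1, 0, 0, 0], [0, 2, 0, 0, 1], [0, 2, 2, 2, 1], [0, 1, 2, 2, 1, 1], [0, 0, 1, 0, 2], [0, 1, 0, 0], [2, 1, 0, 2, 1, 0], [], [0, 1, 0, 0], [2, 1, 2]],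
[[1, 2, 0, 1, 1], [2, 2, 2, 2, 0], [2, 2, 0, 2, 1], [2, 0, 1, 0, 1], [0, 2, 1, 2, 0], [2, 1, 1, 2, 0, 2], [2, 1, 0, 1, 0], [0, 0, 1, 0, 1, 2], [2, 0, 1, 0], [0, 0, 2, 2, 0], [0, 0, 0, 2, 1], [1, 2, 0, 1], [1, 0, 1, 2, 0], [1, 2, 0], [2, 2, 0, 2], [2, 0, 1, 0], [], [1, 2, 0]],
[[2, 0, 2, 1, 0], [1, 0, 2, 2, 1], [0, 0], [1, 0, 0, 0], [2, 2], [0, 0, 1, 1], [1, 0, 2, 2], [2, 2, 1], [0, 0, 1], [0, 0, 0, 0, 1, 0], [1, 2, 2, 2, 2], [2, 2, 1, 1], [1, 2, 1, 2, 2, 1], [2, 1, 1, 2], [1, 2, 2, 0, 0], [0, 0], [0, 0, 1], []]]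

def word (p q : Fin 18) : List (Fin 3) := (wordTable.getD p.val []).getD q.val []

/-- `p` and `q` are joined, as a Boolean test. -/
def jn (p q : Fin 18) : Bool := (List.finRange 18).any fun k => inc p k && inc q k

lemma joined_iff (p q : Fin 18) : Joined B p q ↔ jn p q = true := by
  constructor
  · rintro ⟨b, ⟨k, rfl⟩, hp, hq⟩
    rw [jn, List.any_eq_true]
    refine ⟨k, List.mem_finRange k, ?_⟩
    have hp' : inc p k = true := hp
    have hq' : inc q k = true := hq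
    rw [hp', hq']
    rfl
  · intro h
    rw [jn, List.any_eq_true] at h
    obtain ⟨k, -, hk⟩ := h
    rw [Bool.and_eq_true] at hk
    exact ⟨blk k, ⟨k, rfl⟩, hk.1, hk.2⟩

lemma table_joined : ∀ p q : Fin 18, p ≠ q → jn p q = true →
    app (word p q) 0 = p ∧ app (word p q) 3 = q := by
  decide +kernel

lemma table_nonjoined : ∀ p q : Fin 18, p ≠ q → jn p q = false →
    app (word p q) 0 = p ∧ app (word p q) 1 = q := by
  decide +kernel

lemma trans_of_base (R : Fin 18 → Fin 18 → Prop) (x y : Fin 18)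
    (h : ∀ p q, p ≠ q → R p q → app (word p q) x = p ∧ app (word p q) y = q) :
    TransitiveOnPairs G R := by
  intro p q p' q' hpq hR hpq' hR'
  obtain ⟨h1, h2⟩ := h p q hpq hR
  obtain ⟨h3, h4⟩ := h p' q' hpq' hR'
  rw [app_eq] at h1 h2 h3 h4
  refine ⟨ev (word p' q') * (ev (word p q))⁻¹,
    G.mul_mem (ev_mem _) (G.inv_mem (ev_mem _)), ?_⟩
  have e1 : (ev (word p q))⁻¹ p = x := by
    rw [Equiv.Perm.inv_eq_iff_eq]
    exact h1.symm
  have e2 : (ev (word p q))⁻¹ q = y := by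
    rw [Equiv.Perm.inv_eq_iff_eq]
    exact h2.symm
  rw [Equiv.Perm.mul_apply, Equiv.Perm.mul_apply, e1, e2, h3, h4]

lemma not_classical : ¬ IsClassical B := by
  rintro ⟨F, _, _, d, v, e, hd, -, -⟩
  have h1 : Nat.card (Fin 18) = Nat.card F ^ d := by
    rw [Nat.card_congr e, Nat.card_fun]
    simp
  rw [Nat.card_fin] at h1
  set k := Nat.card F with hk
  have hk2 : 2 ≤ k := by
    by_contra hlt
    have : k = 0 ∨ k = 1 := by omega
    rcases this with h | h <;> rw [h] at h1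
    · rw [zero_pow (by omega)] at h1
      omega
    · rw [one_pow] at h1
      omega
  have hd5 : d < 5 := by
    by_contra hge
    have : 2 ^ 5 ≤ k ^ d := le_trans (Nat.pow_le_pow_right (by norm_num) (by omega))
      (Nat.pow_le_pow_left hk2 d)
    omega
  have hk5 : k < 5 := by
    by_contra hge
    have : 5 ^ 2 ≤ k ^ d := le_trans (Nat.pow_le_pow_left (by omega) 2)
      (Nat.pow_le_pow_right (by omega) hd)
    omega
  interval_cases d <;> interval_cases k <;> omega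

/-- There is a symmetric `(3, 2)`-net that admits an automorphism group which is transitive on
unordered pairs of distinct joined points and also transitive on unordered pairs of distinct
non-joined points, and that is not classical. -/
theorem result : ∃ (V : Type) (B : Set (Set V)) (G : Subgroup (Equiv.Perm V)),
    IsSymmetricNet B 3 2 ∧
    (∀ g ∈ G, IsAutomorphism B g) ∧
    TransitiveOnPairs G (Joined B) ∧
    TransitiveOnPairs G (fun p q => ¬ Joined B p q) ∧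
    ¬ IsClassical B := by
  refine ⟨Fin 18, B, G, ⟨primal, dual⟩, ?_, ?_, ?_, not_classical⟩
  · intro g hg b hb
    exact (hg b).1 hb
  · apply trans_of_base _ 0 3
    intro p q hpq h
    exact table_joined p q hpq ((joined_iff p q).1 h)
  · apply trans_of_base _ 0 1
    intro p q hpq h
    apply table_nonjoined p q hpq
    rw [joined_iff] at h
    simpa using h

end Pool.Agent.Results.MP_36fbc5_co.NonClassicalNet
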